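import Pool.Graph.R_pool_sql_team_seeded_63374d34.N442.LP.Abs

/-!
# Copies of a 3-graph and families which contain a copy
-/

set_option autoImplicit false

open Finset
open scoped Classical

namespace Pool.Agent.Helper38.TP3

open Pool.Agent.N442.LP

/-- `f` is an induced copy of the 3-graph `F` in `G`. -/
def IsCp {α : Type} (F : Finset (Finset α)) {n : ℕ} (G : Finset (Finset (Fin n)))
    (f : α → Fin n) : Prop :=
  Function.Injective f ∧ ∀ e : Finset α, e.card = 3 → (e ∈ F ↔ e.image f ∈ G)

/-- The number of labelled induced copies of `F` in `G`. -/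
noncomputable def cps {α : Type} [Fintype α] (F : Finset (Finset α)) {n : ℕ}
    (G : Finset (Finset (Fin n))) : ℕ :=
  ((univ : Finset (α → Fin n)).filter fun f => IsCp F G f).card

/-- the points `y a p` contain a copy -/
def HasCp {α : Type} (F : Finset (Finset α)) {k t n : ℕ} (G : Finset (Finset (Fin n)))
    (y : Fin k → Fin t → Fin n) : Prop :=
  ∃ e : α → Fin k × Fin t, Function.Injective e ∧ IsCp F G (fun a => y (e a).1 (e a).2)

theorem HasCp.comp {α : Type} {F : Finset (Finset α)} {k t T n : ℕ} {G : Finset (Finset (Fin n))}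
    {y : Fin k → Fin T → Fin n} {z : Fin k → Fin t → Fin T} (hz : ∀ i, Function.Injective (z i))
    (h : HasCp F G (fun i a => y i (z i a))) : HasCp F G y := by
  obtain ⟨e, he, hc⟩ := h
  refine ⟨fun o => ((e o).1, z (e o).1 (e o).2), ?_, hc⟩
  intro a b hab
  simp only [Prod.mk.injEq] at hab
  apply he
  have h1 : (e a).1 = (e b).1 := hab.1
  have h2 := hab.2
  rw [← h1] at h2
  exact Prod.ext h1 (hz _ h2)

/-- few copies, few families with a copy -/
theorem count_cp {α : Type} [Fintype α] (F : Finset (Finset α)) (k T n : ℕ)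
    (G : Finset (Finset (Fin n))) :
    ((univ : Finset (Fin k → Fin T → Fin n)).filter (HasCp F G)).card ≤
      (k * T) ^ Fintype.card α * (cps F G * n ^ (k * T - Fintype.card α)) := by
  rw [curry_card]
  set E : Finset (α → Fin k × Fin T) := univ.filter Function.Injective with hE
  set t : Finset (α → Fin n) := univ.filter fun w => IsCp F G w with ht
  have h1 : (((univ : Finset (Fin k → Fin T → Fin n)).filter (HasCp F G)).image
      (fun y => fun p : Fin k × Fin T => y p.1 p.2)) ⊆
      E.biUnion fun e => univ.filter fun w : Fin k × Fin T → Fin n => w ∘ e ∈ t := by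
    intro w hw
    obtain ⟨y, hy, rfl⟩ := mem_image.mp hw
    obtain ⟨e, he, hc⟩ := (mem_filter.mp hy).2
    rw [mem_biUnion]
    refine ⟨e, mem_filter.mpr ⟨mem_univ _, he⟩, mem_filter.mpr ⟨mem_univ _, ?_⟩⟩
    exact mem_filter.mpr ⟨mem_univ _, hc⟩
  refine (card_le_card h1).trans (card_biUnion_le.trans ?_)
  have h2 : ∀ e ∈ E, (univ.filter fun w : Fin k × Fin T → Fin n => w ∘ e ∈ t).card ≤
      cps F G * n ^ (k * T - Fintype.card α) := by
    intro e he
    have h3 := pull_le (V := Fin n) e (mem_filter.mp he).2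
      (univ.filter fun w : Fin k × Fin T → Fin n => w ∘ e ∈ t) t
      (fun w hw => (mem_filter.mp hw).2)
    rw [Fintype.card_prod, Fintype.card_fin, Fintype.card_fin, Fintype.card_fin] at h3
    exact h3
  refine (sum_le_sum h2).trans ?_
  rw [sum_const, smul_eq_mul]
  refine Nat.mul_le_mul_right _ ?_
  have h4 : E.card ≤ (univ : Finset (α → Fin k × Fin T)).card := card_le_card (filter_subset _ _)
  refine h4.trans (le_of_eq ?_)
  rw [card_univ, Fintype.card_fun, Fintype.card_prod, Fintype.card_fin, Fintype.card_fin]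

/-- the same with densities -/
theorem count_cp_real {α : Type} [Fintype α] (F : Finset (Finset α)) (k T n : ℕ) (hn : 0 < n)
    (G : Finset (Finset (Fin n))) :
    (((univ : Finset (Fin k → Fin T → Fin n)).filter (HasCp F G)).card : ℝ) ≤
      ((k * T : ℕ) : ℝ) ^ Fintype.card α * ((cps F G : ℝ) / (n : ℝ) ^ Fintype.card α) *
        (n : ℝ) ^ (k * T) := by
  have hn' : (0 : ℝ) < n := by exact_mod_cast hn
  rcases Nat.lt_or_ge (k * T) (Fintype.card α) with h | h
  · have h0 : ((univ : Finset (Fin k → Fin T → Fin n)).filter (HasCp F G)) = ∅ := by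
      ext y
      simp only [mem_filter, mem_univ, true_and, notMem_empty, iff_false]
      rintro ⟨e, he, -⟩
      have := Fintype.card_le_of_injective e he
      rw [Fintype.card_prod, Fintype.card_fin, Fintype.card_fin] at this
      omega
    rw [h0, card_empty, Nat.cast_zero]
    positivity
  · have h1 := (Nat.cast_le (α := ℝ)).2 (count_cp F k T n G)
    rw [Nat.cast_mul, Nat.cast_mul, Nat.cast_pow, Nat.cast_pow] at h1
    refine h1.trans (le_of_eq ?_)
    have h2 : (n : ℝ) ^ (k * T) = (n : ℝ) ^ (k * T - Fintype.card α) *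
        (n : ℝ) ^ Fintype.card α := by
      rw [← pow_add]; congr 1; omega
    rw [h2]
    field_simp

/-- the density of the copies -/
noncomputable def qc {α : Type} [Fintype α] (F : Finset (Finset α)) (n : ℕ)
    (G : Finset (Finset (Fin n))) : ℝ := (cps F G : ℝ) / (n : ℝ) ^ Fintype.card α

theorem qc_nonneg {α : Type} [Fintype α] (F : Finset (Finset α)) (n : ℕ)
    (G : Finset (Finset (Fin n))) : 0 ≤ qc F n G := by
  unfold qc; positivity

/-- one of finitely many copies -/
def BC {ι : Type} {α : ι → Type} (F : ∀ i, Finset (Finset (α i))) (k T n : ℕ)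
    (G : Finset (Finset (Fin n))) (y : Fin k → Fin T → Fin n) : Prop := ∃ i, HasCp (F i) G y

theorem hq_fam {ι : Type} [Fintype ι] {α : ι → Type} [∀ i, Fintype (α i)]
    (F : ∀ i, Finset (Finset (α i))) (k T : ℕ) :
    ∃ C : ℝ, 0 ≤ C ∧ ∀ n : ℕ, 0 < n → ∀ G : Finset (Finset (Fin n)),
      (((univ : Finset (Fin k → Fin T → Fin n)).filter (BC F k T n G)).card : ℝ) ≤
        C * (∑ i, qc (F i) n G) * (n : ℝ) ^ (k * T) := by
  refine ⟨∑ i, ((k * T : ℕ) : ℝ) ^ Fintype.card (α i), by positivity, fun n hn G => ?_⟩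
  have h1 : ((univ : Finset (Fin k → Fin T → Fin n)).filter (BC F k T n G)).card ≤
      ∑ i, ((univ : Finset (Fin k → Fin T → Fin n)).filter (HasCp (F i) G)).card := by
    refine (card_le_card ?_).trans card_biUnion_le
    intro y hy
    obtain ⟨i, hi⟩ := (mem_filter.mp hy).2
    exact mem_biUnion.mpr ⟨i, mem_univ _, mem_filter.mpr ⟨mem_univ _, hi⟩⟩
  have h2 : (((univ : Finset (Fin k → Fin T → Fin n)).filter (BC F k T n G)).card : ℝ) ≤
      ∑ i, (((univ : Finset (Fin k → Fin T → Fin n)).filter (HasCp (F i) G)).card : ℝ) := by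
    exact_mod_cast h1
  refine h2.trans ?_
  rw [mul_sum, sum_mul]
  refine sum_le_sum fun i _ => (count_cp_real (F i) k T n hn G).trans ?_
  refine mul_le_mul_of_nonneg_right ?_ (by positivity)
  refine mul_le_mul_of_nonneg_right ?_ (qc_nonneg (F i) n G)
  exact single_le_sum (f := fun i => ((k * T : ℕ) : ℝ) ^ Fintype.card (α i))
    (fun _ _ => by positivity) (mem_univ i)

/-- the copies of an induced subgraph -/
theorem cps_mono {α β : Type} [Fintype α] [Fintype β] (F : Finset (Finset α)) (F' : Finset (Finset β))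
    (g : α ↪ β) (h : ∀ e : Finset α, e.card = 3 → (e ∈ F ↔ e.map g ∈ F'))
    {n : ℕ} (G : Finset (Finset (Fin n))) :
    cps F' G ≤ cps F G * n ^ (Fintype.card β - Fintype.card α) := by
  have h1 := pull_le (V := Fin n) g g.injective
    ((univ : Finset (β → Fin n)).filter fun f => IsCp F' G f)
    ((univ : Finset (α → Fin n)).filter fun f => IsCp F G f) (by
      intro w hw
      have hw' := (mem_filter.mp hw).2
      refine mem_filter.mpr ⟨mem_univ _, hw'.1.comp g.injective, fun e he => ?_⟩
      rw [h e he, hw'.2 (e.map g) (by rw [card_map, he]), map_eq_image, image_image])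
  rw [Fintype.card_fin] at h1
  exact h1

theorem qc_mono {α β : Type} [Fintype α] [Fintype β] (F : Finset (Finset α)) (F' : Finset (Finset β))
    (g : α ↪ β) (h : ∀ e : Finset α, e.card = 3 → (e ∈ F ↔ e.map g ∈ F'))
    {n : ℕ} (hn : 0 < n) (G : Finset (Finset (Fin n))) : qc F' n G ≤ qc F n G := by
  have hn' : (0 : ℝ) < n := by exact_mod_cast hn
  have h1 := (Nat.cast_le (α := ℝ)).2 (cps_mono F F' g h G)
  have hc : Fintype.card α ≤ Fintype.card β := Fintype.card_le_of_embedding g
  unfold qc
  rw [div_le_div_iff₀ (by positivity) (by positivity)]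
  push_cast at h1
  calc (cps F' G : ℝ) * (n : ℝ) ^ Fintype.card α
      ≤ (cps F G : ℝ) * (n : ℝ) ^ (Fintype.card β - Fintype.card α) * (n : ℝ) ^ Fintype.card α :=
        mul_le_mul_of_nonneg_right h1 (by positivity)
    _ = (cps F G : ℝ) * (n : ℝ) ^ Fintype.card β := by
        rw [mul_assoc, ← pow_add, Nat.sub_add_cancel hc]

end Pool.Agent.Helper38.TP3
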