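import Pool.Agent.Helper38.TP3.Spans
import Pool.Graph.R_pool_sql_team_seeded_63374d34.N442.LP.Tur2

/-!
# Turán's constructions contain no stars
-/

set_option autoImplicit false

open Finset
open scoped Classical

namespace Pool.Agent.Helper38.TP3

open Pool.Agent.N442.LP Pool.Agent.N442.LP.Tur

/-- the block of a vertex -/
def bk (L : ℕ) {n : ℕ} (v : Fin n) : ℕ := blk L (v.val % L)

theorem mem_even {L n : ℕ} (hL : L % 2 = 0) {a b c : Fin n} (hab : a ≠ b) (hbc : b ≠ c)
    (hac : a ≠ c) : ({a, b, c} : Finset (Fin n)) ∈ tur L n ↔ ¬ (bk L a = bk L b ∧ bk L b = bk L c) := by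
  rw [mem_tur hab hbc hac]
  unfold HT bk
  simp [hL]

theorem no_star {L n : ℕ} (hL : L % 2 = 0) {t : ℕ} (ht : 2 ≤ t) : cps (st t) (tur L n) = 0 := by
  unfold cps
  rw [card_eq_zero, filter_eq_empty_iff]
  rintro f - ⟨hf, h⟩
  set a : Fin 2 ⊕ Fin t := Sum.inl 0 with ha
  set b : Fin 2 ⊕ Fin t := Sum.inl 1 with hb
  set c : Fin 2 ⊕ Fin t := Sum.inr ⟨0, by omega⟩ with hc
  set d : Fin 2 ⊕ Fin t := Sum.inr ⟨1, by omega⟩ with hd
  have hab : a ≠ b := by simp [ha, hb]
  have hac : a ≠ c := by simp [ha, hc]
  have had : a ≠ d := by simp [ha, hd]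
  have hbc : b ≠ c := by simp [hb, hc]
  have hbd : b ≠ d := by simp [hb, hd]
  have hcd : c ≠ d := by simp [hc, hd]
  have h1 := h {a, b, c} (card_eq_three.mpr ⟨a, b, c, hab, hac, hbc, rfl⟩)
  have h2 := h {a, c, d} (card_eq_three.mpr ⟨a, c, d, hac, had, hcd, rfl⟩)
  have h3 := h {b, c, d} (card_eq_three.mpr ⟨b, c, d, hbc, hbd, hcd, rfl⟩)
  rw [mem_st hab hac hbc, image_insert, image_insert, image_singleton,
    mem_even hL (hf.ne hab) (hf.ne hbc) (hf.ne hac)] at h1
  rw [mem_st hac had hcd, image_insert, image_insert, image_singleton,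
    mem_even hL (hf.ne hac) (hf.ne hcd) (hf.ne had)] at h2
  rw [mem_st hbc hbd hcd, image_insert, image_insert, image_singleton,
    mem_even hL (hf.ne hbc) (hf.ne hcd) (hf.ne hbd)] at h3
  have g1 := h1.mp ⟨Or.inl rfl, Or.inr (Or.inl rfl)⟩
  have g2 : bk L (f a) = bk L (f c) ∧ bk L (f c) = bk L (f d) := by
    by_contra hn
    have := (h2.mpr hn).2
    rcases this with e | e | e
    · exact hab e.symm
    · exact hbc e
    · exact hbd e
  have g3 : bk L (f b) = bk L (f c) ∧ bk L (f c) = bk L (f d) := by
    by_contra hn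
    have := (h3.mpr hn).1
    rcases this with e | e | e
    · exact hab e
    · exact hac e
    · exact had e
  exact g1 ⟨g2.1.trans g3.1.symm, g3.1⟩

theorem no_piece {L n : ℕ} (hL : L % 2 = 0) {t : ℕ} (ht : 2 ≤ t) (τ : Fin 3) :
    cps (pc τ t) (tur L n) = 0 := by
  obtain ⟨g, hg⟩ := st_sub τ t t le_rfl ht
  have h := cps_mono (st t) (pc τ t) g hg (tur L n)
  rw [no_star hL ht, zero_mul] at h
  omega

theorem no_span {L n : ℕ} (hL : L % 2 = 0) {k : ℕ} (hk : 4 ≤ k) : spn (tur L n) k (k - 2) = 0 := by
  unfold spn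
  rw [card_eq_zero, filter_eq_empty_iff]
  intro S hS hc
  have hSk := (mem_powersetCard.mp hS).2
  by_cases hall : ∀ u ∈ S, ∀ v ∈ S, bk L u = bk L v
  · have : (tur L n).filter (fun t => t ⊆ S) = ∅ := by
      rw [filter_eq_empty_iff]
      intro e he heS
      obtain ⟨a, b, c, hab, hac, hbc, rfl⟩ := card_eq_three.mp (tur_three e he)
      rw [mem_even hL hab hbc hac] at he
      exact he ⟨hall _ (heS (by simp)) _ (heS (by simp)), hall _ (heS (by simp)) _ (heS (by simp))⟩
    rw [this, card_empty] at hc
    omega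
  · push Not at hall
    obtain ⟨u, hu, v, hv, huv⟩ := hall
    have hne : u ≠ v := fun h => huv (by rw [h])
    set R := (S.erase u).erase v with hR
    have hRc : R.card = k - 2 := by
      rw [hR, card_erase_of_mem (mem_erase.mpr ⟨hne.symm, hv⟩), card_erase_of_mem hu, hSk]
      omega
    have hRS : ∀ w ∈ R, w ∈ S ∧ w ≠ u ∧ w ≠ v := by
      intro w hw
      have h1 := mem_erase.mp hw
      have h2 := mem_erase.mp h1.2
      exact ⟨h2.2, h2.1, h1.1⟩
    -- an edge which does not contain both `u` and `v`
    obtain ⟨p, hp, q, hq, hpq⟩ := one_lt_card.mp (show 1 < R.card by omega)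
    have hp' := hRS p hp
    have hq' := hRS q hq
    obtain ⟨e0, he0, he0S, he0n⟩ : ∃ e0 ∈ tur L n, e0 ⊆ S ∧ ¬ (u ∈ e0 ∧ v ∈ e0) := by
      by_cases h1 : bk L p = bk L u
      · refine ⟨{v, p, q}, ?_, ?_, ?_⟩
        · rw [mem_even hL hp'.2.2.symm hpq hq'.2.2.symm]
          rintro ⟨h2, -⟩
          exact huv (h1.symm.trans h2.symm)
        · intro x hx
          simp only [mem_insert, mem_singleton] at hx
          rcases hx with rfl | rfl | rfl
          · exact hv
          · exact hp'.1
          · exact hq'.1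
        · rintro ⟨h2, -⟩
          simp only [mem_insert, mem_singleton] at h2
          rcases h2 with h2 | h2 | h2
          · exact hne h2
          · exact hp'.2.1 h2.symm
          · exact hq'.2.1 h2.symm
      · refine ⟨{u, p, q}, ?_, ?_, ?_⟩
        · rw [mem_even hL hp'.2.1.symm hpq hq'.2.1.symm]
          rintro ⟨h2, -⟩
          exact h1 h2.symm
        · intro x hx
          simp only [mem_insert, mem_singleton] at hx
          rcases hx with rfl | rfl | rfl
          · exact hu
          · exact hp'.1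
          · exact hq'.1
        · rintro ⟨-, h2⟩
          simp only [mem_insert, mem_singleton] at h2
          rcases h2 with h2 | h2 | h2
          · exact hne h2.symm
          · exact hp'.2.2 h2.symm
          · exact hq'.2.2 h2.symm
    have hsub : insert e0 (R.image fun w => ({u, v, w} : Finset (Fin n))) ⊆
        (tur L n).filter fun t => t ⊆ S := by
      intro e he
      rcases mem_insert.mp he with rfl | he
      · exact mem_filter.mpr ⟨he0, he0S⟩
      · obtain ⟨w, hw, rfl⟩ := mem_image.mp he
        have hw' := hRS w hw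
        refine mem_filter.mpr ⟨?_, ?_⟩
        · rw [mem_even hL hne hw'.2.2.symm hw'.2.1.symm]
          exact fun h => huv h.1
        · intro x hx
          simp only [mem_insert, mem_singleton] at hx
          rcases hx with rfl | rfl | rfl
          · exact hu
          · exact hv
          · exact hw'.1
    have hn0 : e0 ∉ R.image fun w => ({u, v, w} : Finset (Fin n)) := by
      intro h
      obtain ⟨w, -, rfl⟩ := mem_image.mp h
      exact he0n ⟨by simp, by simp⟩
    have hinj : (R.image fun w => ({u, v, w} : Finset (Fin n))).card = R.card := by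
      refine card_image_of_injOn ?_
      intro w hw w' hw' h
      have hw1 := hRS w (mem_coe.mp hw)
      have : w ∈ ({u, v, w'} : Finset (Fin n)) := by
        have h' : ({u, v, w} : Finset (Fin n)) = {u, v, w'} := h
        rw [← h']; simp
      simp only [mem_insert, mem_singleton] at this
      rcases this with h2 | h2 | h2
      · exact absurd h2 hw1.2.1
      · exact absurd h2 hw1.2.2
      · exact h2
    have hcard := card_le_card hsub
    rw [card_insert_of_notMem hn0, hinj, hRc, hc] at hcard
    omega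

theorem KFree.mono {m m' n : ℕ} (h : m ≤ m') {G : Finset (Finset (Fin n))} (hG : KFree m G) :
    KFree m' G := by
  intro S hS
  obtain ⟨S', hS', hc⟩ := exists_subset_card_eq (s := S) (n := m) (by omega)
  obtain ⟨e, he, heG⟩ := hG S' hc
  rw [mem_powersetCard] at he
  exact ⟨e, mem_powersetCard.mpr ⟨he.1.trans hS', he.2⟩, heG⟩

end Pool.Agent.Helper38.TP3
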