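import Pool.Agent.Helper38.TP3.Pieces
import Pool.Graph.R_pool_sql_team_seeded_63374d34.N442.LP.Fin

/-!
# The local theorems: three pieces for all `m`, two pieces for `m ≤ 6`
-/

set_option autoImplicit false

open Finset
open scoped Classical

namespace Pool.Agent.Helper38.TP3

open Pool.Agent.N442.LP

/-- **Local theorem, three pieces.** -/
theorem loc3 {m : ℕ} (hm : 3 ≤ m) (k t : ℕ) (hk : 0 < k) : ∃ T : ℕ, 0 < T ∧
    ∀ (n : ℕ) (G : Finset (Finset (Fin n))), KFree m G →
    ∀ (X : Finset (Finset (Fin k))) (y : Fin k → Fin T → Fin n),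
    (∀ f : Fin k → Fin T, (fun i => y i (f i)) ∈ SX G X) → (∀ i, Function.Injective (y i)) →
    rho (2 * ((m - 1) / 2)) * (k : ℝ) ^ 3 < ((QT X).card : ℝ) →
    BC (fun τ : Fin 3 => pc τ t) k T n G y := by
  obtain ⟨T', hT, h⟩ := loc m k (2 * t)
  refine ⟨T', by omega, fun n G hK X y hsel hinj hX => ?_⟩
  obtain ⟨P, z, hP, hz, hI, hR, hPX⟩ := h n G hK X y hsel hinj
  have : Nonempty (Fin k) := ⟨⟨0, hk⟩⟩
  have hcap := fun A S hAS h1 h2 => cap_of_real (by omega) hK hP hR hI A S hAS h1 h2
  by_contra hno
  have hno' : ∀ τ : Fin 3, ¬ HasCp (pc τ t) G (fun i a => y i (z i a)) :=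
    fun τ h => hno ⟨τ, h.comp hz⟩
  have hS : ∀ i j, i ≠ j → P i i j → P j j i := by
    intro i j hij h1
    by_contra h2
    exact hno' 1 (pos1 hP hR hI hij h1 h2)
  have rule : ∀ i j c, i ≠ j → Far P i j → P i j c → P i i c := by
    intro i j c hij hf hc
    by_contra hn
    have hic : i ≠ c := by
      rintro rfl
      exact hf.1 (hP.s23 hc)
    have hjc : j ≠ c := by
      rintro rfl
      exact hf.2 (hP.s23 (hP.s12 hc))
    have hn2 : ¬ P c c i := fun e => hn (hS c i hic.symm e)
    by_cases hd : P j j c
    · exact hno' 2 (pos2 hP hR hI hij hic hf ⟨hn, hn2⟩ hd (hS j c hjc hd) hc)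
    · exact hno' 0 (pos0 hP hR hI hij hic hf ⟨hn, hn2⟩ ⟨hd, fun e => hd (hS c j hjc.symm e)⟩ hc)
  have hb := bound1 hP (m - 1) hcap hS (fun i j c hij hf hc => ⟨rule i j c hij hf hc,
    rule j i c hij.symm ⟨hf.2, hf.1⟩ (hP.s12 hc)⟩) (fun _ => 1 / (k : ℝ)) (smp_uniform hk)
  exact absurd hX (not_lt.mpr (rho_le (nat_half hm) (T_uniform hPX) hb))

section goodman
variable {V : Type}

/-- near or equal -/
noncomputable def nr (P : V → V → V → Prop) (a b : V) : ℝ := if a = b ∨ Far P a b then 1 else 0

theorem nr_sq (P : V → V → V → Prop) (a b : V) : nr P a b * nr P a b = nr P a b := by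
  unfold nr; split_ifs <;> norm_num

theorem nr_symm (P : V → V → V → Prop) (a b : V) : nr P a b = nr P b a := by
  unfold nr
  have : (a = b ∨ Far P a b) ↔ (b = a ∨ Far P b a) := by
    unfold Far
    constructor
    · rintro (h | h)
      · exact Or.inl h.symm
      · exact Or.inr ⟨h.2, h.1⟩
    · rintro (h | h)
      · exact Or.inl h.symm
      · exact Or.inr ⟨h.2, h.1⟩
  simp only [this]

/-- **Goodman's inequality** for patterns all of whose edges are mixed -/
theorem goodman [Fintype V] {P : V → V → V → Prop}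
    (hm : ∀ a b c, P a b c → ¬ ((a = b ∨ Far P a b) ∧ (a = c ∨ Far P a c) ∧ (b = c ∨ Far P b c)) ∧
      ((a = b ∨ Far P a b) ∨ (a = c ∨ Far P a c) ∨ (b = c ∨ Far P b c)))
    (x : V → ℝ) (hx : Smp x) : T (ind P) x x x ≤ 3 / 4 := by
  set r := nr P with hr
  have h1 : ∀ a b c, ind P a b c ≤
      1 / 2 * ((r a b - r a c) ^ 2 + (r b a - r b c) ^ 2 + (r c a - r c b) ^ 2) := by
    intro a b c
    by_cases hp : P a b c
    · rw [ind_one hp]
      obtain ⟨h2, h3⟩ := hm a b c hp
      rw [hr, nr_symm P b a, nr_symm P c a, nr_symm P c b]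
      unfold nr
      by_cases e1 : a = b ∨ Far P a b <;> by_cases e2 : a = c ∨ Far P a c <;>
        by_cases e3 : b = c ∨ Far P b c
      · exact absurd ⟨e1, e2, e3⟩ h2
      · simp only [e1, e2, e3, if_true, if_false]; norm_num
      · simp only [e1, e2, e3, if_true, if_false]; norm_num
      · simp only [e1, e2, e3, if_true, if_false]; norm_num
      · simp only [e1, e2, e3, if_true, if_false]; norm_num
      · simp only [e1, e2, e3, if_true, if_false]; norm_num
      · simp only [e1, e2, e3, if_true, if_false]; norm_num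
      · rcases h3 with h3 | h3 | h3
        · exact absurd h3 e1
        · exact absurd h3 e2
        · exact absurd h3 e3
    · rw [ind_zero hp]
      positivity
  have hx0 := hx.1
  have hx1 := hx.2
  have core : ∀ a, ∑ b, ∑ c, (r a b - r a c) ^ 2 * x b * x c ≤ 1 / 2 := by
    intro a
    set p := ∑ b, r a b * x b with hp
    have e1 : ∑ b, ∑ c, (r a b - r a c) ^ 2 * x b * x c = 2 * p - 2 * p ^ 2 := by
      have : ∀ b c, (r a b - r a c) ^ 2 * x b * x c =
          r a b * x b * x c + r a c * x c * x b - 2 * ((r a b * x b) * (r a c * x c)) := by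
        intro b c
        have s1 := nr_sq P a b
        have s2 := nr_sq P a c
        rw [← hr] at s1 s2
        linear_combination (x b * x c) * s1 + (x b * x c) * s2
      simp only [this, sum_sub_distrib, sum_add_distrib]
      have a1 : ∑ b, ∑ c, r a b * x b * x c = p := by
        simp only [← mul_sum, hx1, mul_one]
        exact hp.symm
      have a2 : ∑ b, ∑ c, r a c * x c * x b = p := by
        rw [sum_comm]
        exact a1
      have a3 : ∑ b, ∑ c, 2 * ((r a b * x b) * (r a c * x c)) = 2 * p ^ 2 := by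
        have : ∀ b, ∑ c, 2 * ((r a b * x b) * (r a c * x c)) = 2 * p * (r a b * x b) := by
          intro b
          rw [hp, mul_sum, sum_mul]
          refine sum_congr rfl fun c _ => ?_
          ring
        simp only [this, ← mul_sum]
        rw [← hp]; ring
      rw [a1, a2, a3]; ring
    rw [e1]
    nlinarith [sq_nonneg (p - 1 / 2)]
  have big : ∑ a, ∑ b, ∑ c, (r a b - r a c) ^ 2 * x a * x b * x c ≤ 1 / 2 := by
    have : ∀ a, ∑ b, ∑ c, (r a b - r a c) ^ 2 * x a * x b * x c =
        x a * ∑ b, ∑ c, (r a b - r a c) ^ 2 * x b * x c := by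
      intro a
      rw [mul_sum]
      refine sum_congr rfl fun b _ => ?_
      rw [mul_sum]
      refine sum_congr rfl fun c _ => ?_
      ring
    simp only [this]
    calc ∑ a, x a * ∑ b, ∑ c, (r a b - r a c) ^ 2 * x b * x c ≤ ∑ a, x a * (1 / 2) :=
          sum_le_sum fun a _ => mul_le_mul_of_nonneg_left (core a) (hx0 a)
      _ = 1 / 2 := by rw [← sum_mul, hx1]; norm_num
  have e2 : ∑ a, ∑ b, ∑ c, (r b a - r b c) ^ 2 * x a * x b * x c =
      ∑ a, ∑ b, ∑ c, (r a b - r a c) ^ 2 * x a * x b * x c := by
    rw [sum_comm]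
    refine sum_congr rfl fun a _ => sum_congr rfl fun b _ => sum_congr rfl fun c _ => ?_
    ring
  have e3 : ∑ a, ∑ b, ∑ c, (r c a - r c b) ^ 2 * x a * x b * x c =
      ∑ a, ∑ b, ∑ c, (r a b - r a c) ^ 2 * x a * x b * x c := by
    have s : ∀ a, ∑ b, ∑ c, (r c a - r c b) ^ 2 * x a * x b * x c =
        ∑ c, ∑ b, (r c a - r c b) ^ 2 * x a * x b * x c := fun a => sum_comm
    simp only [s]
    rw [sum_comm]
    refine sum_congr rfl fun a _ => sum_congr rfl fun b _ => sum_congr rfl fun c _ => ?_
    ring
  have fin : T (ind P) x x x ≤ ∑ a, ∑ b, ∑ c, (1 / 2 * ((r a b - r a c) ^ 2 + (r b a - r b c) ^ 2 +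
      (r c a - r c b) ^ 2)) * x a * x b * x c := by
    unfold T
    refine sum_le_sum fun a _ => sum_le_sum fun b _ => sum_le_sum fun c _ => ?_
    refine mul_le_mul_of_nonneg_right ?_ (hx0 c)
    refine mul_le_mul_of_nonneg_right ?_ (hx0 b)
    exact mul_le_mul_of_nonneg_right (h1 a b c) (hx0 a)
  refine fin.trans ?_
  have split : ∑ a, ∑ b, ∑ c, (1 / 2 * ((r a b - r a c) ^ 2 + (r b a - r b c) ^ 2 +
      (r c a - r c b) ^ 2)) * x a * x b * x c =
      1 / 2 * ∑ a, ∑ b, ∑ c, (r a b - r a c) ^ 2 * x a * x b * x c +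
      1 / 2 * ∑ a, ∑ b, ∑ c, (r b a - r b c) ^ 2 * x a * x b * x c +
      1 / 2 * ∑ a, ∑ b, ∑ c, (r c a - r c b) ^ 2 * x a * x b * x c := by
    simp only [mul_sum, ← sum_add_distrib]
    refine sum_congr rfl fun a _ => sum_congr rfl fun b _ => sum_congr rfl fun c _ => ?_
    ring
  rw [split, e2, e3]
  linarith

end goodman

theorem mem_two {α : Type} [DecidableEq α] {a i j : α} (h : a ∈ ({i, j} : Finset α)) :
    a = i ∨ a = j := by simpa using h

theorem mem_three {α : Type} [DecidableEq α] {a i j l : α} (h : a ∈ ({i, j, l} : Finset α)) :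
    a = i ∨ a = j ∨ a = l := by simpa using h

theorem two_vac {α : Type} [DecidableEq α] {i j a b c : α} (ha : a ∈ ({i, j} : Finset α))
    (hb : b ∈ ({i, j} : Finset α)) (hc : c ∈ ({i, j} : Finset α)) (hab : a ≠ b) (hbc : b ≠ c)
    (hac : a ≠ c) : False := by
  rcases mem_two ha with rfl | rfl <;> rcases mem_two hb with rfl | rfl <;>
    rcases mem_two hc with rfl | rfl <;>
    first
    | exact absurd rfl hab
    | exact absurd rfl hbc
    | exact absurd rfl hac

/-- **Local theorem, two pieces, `m ≤ 6`.** -/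
theorem loc2' {m : ℕ} (hm : 3 ≤ m) (hm6 : m ≤ 6) (k t : ℕ) (hk : 0 < k) : ∃ T : ℕ, 0 < T ∧
    ∀ (n : ℕ) (G : Finset (Finset (Fin n))), KFree m G →
    ∀ (X : Finset (Finset (Fin k))) (y : Fin k → Fin T → Fin n),
    (∀ f : Fin k → Fin T, (fun i => y i (f i)) ∈ SX G X) → (∀ i, Function.Injective (y i)) →
    rho (2 * ((m - 1) / 2)) * (k : ℝ) ^ 3 < ((QT X).card : ℝ) →
    BC (fun τ : Fin 2 => pc τ.castSucc t) k T n G y := by
  obtain ⟨T', hT, h⟩ := loc m k (2 * t)
  refine ⟨T', by omega, fun n G hK X y hsel hinj hX => ?_⟩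
  obtain ⟨P, z, hP, hz, hI, hR, hPX⟩ := h n G hK X y hsel hinj
  have hcap := fun A S hAS h1 h2 => cap_of_real (by omega) hK hP hR hI A S hAS h1 h2
  by_contra hno
  have hno0 : ¬ HasCp (pc 0 t) G (fun i a => y i (z i a)) := fun h => hno ⟨0, h.comp hz⟩
  have hno1 : ¬ HasCp (pc 1 t) G (fun i a => y i (z i a)) := fun h => hno ⟨1, h.comp hz⟩
  have hS : ∀ i j, i ≠ j → P i i j → P j j i := by
    intro i j hij h1
    by_contra h2
    exact hno1 (pos1 hP hR hI hij h1 h2)
  have hU : ∀ a b c, a ≠ b → b ≠ c → a ≠ c → P a b c →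
      ¬ (Far P a b ∧ Far P a c ∧ Far P b c) := by
    rintro a b c hab hbc hac hp ⟨f1, f2, f3⟩
    exact hno0 (pos0 hP hR hI hab hac f1 f2 f3 hp)
  -- a pair of near parts
  have hnear : ∀ i j, i ≠ j → ¬ Far P i j → P i i j ∧ P j j i := by
    intro i j hij hf
    unfold Far at hf
    by_cases h1 : P i i j
    · exact ⟨h1, hS i j hij h1⟩
    · by_cases h2 : P j j i
      · exact ⟨hS j i hij.symm h2, h2⟩
      · exact absurd ⟨h1, h2⟩ hf
  have key : T (ind P) (fun _ => 1 / (k : ℝ)) (fun _ => 1 / (k : ℝ)) (fun _ => 1 / (k : ℝ)) ≤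
      rho (2 * ((m - 1) / 2)) := by
    rcases Nat.lt_or_ge m 5 with h5 | h5
    · -- no near parts at all
      have hfar : ∀ i j, i ≠ j → Far P i j := by
        intro i j hij
        by_contra hf
        obtain ⟨h1, h2⟩ := hnear i j hij hf
        have := hcap {i, j} {i, j} (Subset.refl _) (by
          intro a ha b hb c hc hab hbc hac
          exact (two_vac ha hb hc hab hbc hac).elim) (by
          intro u hu v hv huv
          rcases mem_two hu with rfl | rfl <;> rcases mem_two hv with rfl | rfl
          · exact absurd rfl huv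
          · exact h1
          · exact h2
          · exact absurd rfl huv)
        rw [card_pair hij] at this
        omega
      have hz0 : ∀ a b c, ¬ P a b c := by
        intro a b c hp
        by_cases hab : a = b
        · subst hab
          by_cases hac : a = c
          · subst hac; exact hP.irr a hp
          · exact (hfar a c hac).1 hp
        · by_cases hac : a = c
          · subst hac; exact (hfar a b hab).1 (hP.s23 hp)
          · by_cases hbc : b = c
            · subst hbc; exact (hfar a b hab).2 (hP.s23 (hP.s12 hp))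
            · exact hU a b c hab hbc hac hp ⟨hfar a b hab, hfar a c hac, hfar b c hbc⟩
      have hT0 : T (ind P) (fun _ => 1 / (k : ℝ)) (fun _ => 1 / (k : ℝ)) (fun _ => 1 / (k : ℝ)) = 0 := by
        unfold T
        refine sum_eq_zero fun a _ => sum_eq_zero fun b _ => sum_eq_zero fun c _ => ?_
        rw [ind_zero (hz0 a b c)]; ring
      rw [hT0]
      exact rho_nonneg (by omega)
    · have h4 : 2 * ((m - 1) / 2) = 4 := by omega
      rw [h4]
      have hr : rho 4 = 3 / 4 := by unfold rho; norm_num
      rw [hr]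
      refine goodman (fun a b c hp => ?_) _ (smp_uniform hk)
      by_cases hab : a = b
      · subst hab
        by_cases hac : a = c
        · subst hac; exact absurd hp (hP.irr a)
        · refine ⟨?_, Or.inl (Or.inl rfl)⟩
          rintro ⟨-, h2, -⟩
          rcases h2 with h2 | h2
          · exact hac h2
          · exact h2.1 hp
      · by_cases hac : a = c
        · subst hac
          refine ⟨?_, Or.inr (Or.inl (Or.inl rfl))⟩
          rintro ⟨h1, -, -⟩
          rcases h1 with h1 | h1
          · exact hab h1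
          · exact h1.1 (hP.s23 hp)
        · by_cases hbc : b = c
          · subst hbc
            refine ⟨?_, Or.inr (Or.inr (Or.inl rfl))⟩
            rintro ⟨h1, -, -⟩
            rcases h1 with h1 | h1
            · exact hab h1
            · exact h1.2 (hP.s23 (hP.s12 hp))
          · constructor
            · rintro ⟨h1, h2, h3⟩
              exact hU a b c hab hbc hac hp ⟨h1.resolve_left hab, h2.resolve_left hac,
                h3.resolve_left hbc⟩
            · by_contra hn
              push Not at hn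
              obtain ⟨⟨-, n1⟩, ⟨-, n2⟩, ⟨-, n3⟩⟩ := hn
              obtain ⟨p1, p2⟩ := hnear a b hab n1
              obtain ⟨p3, p4⟩ := hnear a c hac n2
              obtain ⟨p5, p6⟩ := hnear b c hbc n3
              have := hcap {a, b, c} {a, b, c} (Subset.refl _) (by
                intro u hu v hv w hw huv hvw huw
                have e1 : P a c b := hP.s23 hp
                have e2 : P b a c := hP.s12 hp
                have e3 : P b c a := hP.s23 e2
                have e4 : P c a b := hP.s12 e1
                have e5 : P c b a := hP.s23 e4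
                rcases mem_three hu with rfl | rfl | rfl <;> rcases mem_three hv with rfl | rfl | rfl <;>
                  rcases mem_three hw with rfl | rfl | rfl <;>
                  first
                  | exact absurd rfl huv
                  | exact absurd rfl hvw
                  | exact absurd rfl huw
                  | assumption) (by
                intro u hu v hv huv
                rcases mem_three hu with rfl | rfl | rfl <;> rcases mem_three hv with rfl | rfl | rfl <;>
                  first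
                  | exact absurd rfl huv
                  | assumption)
              rw [card_eq_three.mpr ⟨a, b, c, hab, hac, hbc, rfl⟩] at this
              omega
  have h4 : (0 : ℝ) ≤ (k : ℝ) ^ 3 := by positivity
  have := T_uniform hPX
  nlinarith [mul_le_mul_of_nonneg_left key h4]

end Pool.Agent.Helper38.TP3
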