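import Pool.Agent.Helper38.TP3.Local

/-!
# The density theorems for the three pieces, and their consequences
-/

set_option autoImplicit false

open Finset
open scoped Classical

namespace Pool.Agent.Helper38.TP3

open Pool.Agent.N442.LP

theorem thm3 {m : ℕ} (hm : 3 ≤ m) (t : ℕ) {ε : ℝ} (hε : 0 < ε) : ∃ δ : ℝ, 0 < δ ∧ ∃ N : ℕ,
    ∀ n : ℕ, N ≤ n → ∀ G : Finset (Finset (Fin n)), (∀ e ∈ G, e.card = 3) → KFree m G →
      (∑ τ : Fin 3, qc (pc τ t) n G) ≤ δ →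
      (G.card : ℝ) ≤ (rho (2 * ((m - 1) / 2)) + ε) * (n.choose 3 : ℝ) :=
  main_abs m (rho (2 * ((m - 1) / 2))) (BC (fun τ : Fin 3 => pc τ t))
    (fun n G => ∑ τ : Fin 3, qc (pc τ t) n G) (rho_nonneg (by omega))
    (hq_fam (fun τ : Fin 3 => pc τ t)) (fun k hk => loc3 hm k t hk) hε

theorem thm2 {m : ℕ} (hm : 3 ≤ m) (hm6 : m ≤ 6) (t : ℕ) {ε : ℝ} (hε : 0 < ε) : ∃ δ : ℝ, 0 < δ ∧
    ∃ N : ℕ, ∀ n : ℕ, N ≤ n → ∀ G : Finset (Finset (Fin n)), (∀ e ∈ G, e.card = 3) → KFree m G →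
      (∑ τ : Fin 2, qc (pc τ.castSucc t) n G) ≤ δ →
      (G.card : ℝ) ≤ (rho (2 * ((m - 1) / 2)) + ε) * (n.choose 3 : ℝ) :=
  main_abs m (rho (2 * ((m - 1) / 2))) (BC (fun τ : Fin 2 => pc τ.castSucc t))
    (fun n G => ∑ τ : Fin 2, qc (pc τ.castSucc t) n G) (rho_nonneg (by omega))
    (hq_fam (fun τ : Fin 2 => pc τ.castSucc t)) (fun k hk => loc2' hm hm6 k t hk) hε

/-- `F` is an induced subgraph of `F'`. -/
def Sub {α β : Type} (F : Finset (Finset α)) (F' : Finset (Finset β)) : Prop :=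
  ∃ g : α ↪ β, ∀ e : Finset α, e.card = 3 → (e ∈ F ↔ e.map g ∈ F')

theorem Sub.qc_le {α β : Type} [Fintype α] [Fintype β] {F : Finset (Finset α)}
    {F' : Finset (Finset β)} (h : Sub F F') {n : ℕ} (hn : 0 < n) (G : Finset (Finset (Fin n))) :
    qc F' n G ≤ qc F n G := by
  obtain ⟨g, hg⟩ := h
  exact qc_mono F F' g hg hn G

/-- **Few induced copies of a subgraph of every piece.** -/
theorem thm3F {m : ℕ} (hm : 3 ≤ m) {α : Fin 3 → Type} [∀ τ, Fintype (α τ)]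
    (F : ∀ τ, Finset (Finset (α τ))) (t : ℕ) (hF : ∀ τ, Sub (F τ) (pc τ t)) {ε : ℝ} (hε : 0 < ε) :
    ∃ δ : ℝ, 0 < δ ∧ ∃ N : ℕ, ∀ n : ℕ, N ≤ n → ∀ G : Finset (Finset (Fin n)),
      (∀ e ∈ G, e.card = 3) → KFree m G →
      (∀ τ, (cps (F τ) G : ℝ) ≤ δ * (n : ℝ) ^ Fintype.card (α τ)) →
      (G.card : ℝ) ≤ (rho (2 * ((m - 1) / 2)) + ε) * (n.choose 3 : ℝ) := by
  obtain ⟨δ, hδ, N, hN⟩ := thm3 hm t hε
  refine ⟨δ / 3, by positivity, max N 1, fun n hn G h3 hK h => ?_⟩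
  have hn1 : 0 < n := (le_max_right _ _).trans hn
  have hn' : (0 : ℝ) < n := by exact_mod_cast hn1
  refine hN n ((le_max_left _ _).trans hn) G h3 hK ?_
  have h1 : ∀ τ ∈ (univ : Finset (Fin 3)), qc (pc τ t) n G ≤ δ / 3 := by
    intro τ _
    refine ((hF τ).qc_le hn1 G).trans ?_
    unfold qc
    rw [div_le_iff₀ (by positivity)]
    exact h τ
  refine (sum_le_sum h1).trans (le_of_eq ?_)
  rw [sum_const, card_univ, Fintype.card_fin, nsmul_eq_mul]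
  push_cast
  ring

theorem thm2F {m : ℕ} (hm : 3 ≤ m) (hm6 : m ≤ 6) {α : Fin 2 → Type} [∀ τ, Fintype (α τ)]
    (F : ∀ τ, Finset (Finset (α τ))) (t : ℕ) (hF : ∀ τ, Sub (F τ) (pc τ.castSucc t)) {ε : ℝ}
    (hε : 0 < ε) :
    ∃ δ : ℝ, 0 < δ ∧ ∃ N : ℕ, ∀ n : ℕ, N ≤ n → ∀ G : Finset (Finset (Fin n)),
      (∀ e ∈ G, e.card = 3) → KFree m G →
      (∀ τ, (cps (F τ) G : ℝ) ≤ δ * (n : ℝ) ^ Fintype.card (α τ)) →
      (G.card : ℝ) ≤ (rho (2 * ((m - 1) / 2)) + ε) * (n.choose 3 : ℝ) := by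
  obtain ⟨δ, hδ, N, hN⟩ := thm2 hm hm6 t hε
  refine ⟨δ / 2, by positivity, max N 1, fun n hn G h3 hK h => ?_⟩
  have hn1 : 0 < n := (le_max_right _ _).trans hn
  have hn' : (0 : ℝ) < n := by exact_mod_cast hn1
  refine hN n ((le_max_left _ _).trans hn) G h3 hK ?_
  have h1 : ∀ τ ∈ (univ : Finset (Fin 2)), qc (pc τ.castSucc t) n G ≤ δ / 2 := by
    intro τ _
    refine ((hF τ).qc_le hn1 G).trans ?_
    unfold qc
    rw [div_le_iff₀ (by positivity)]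
    exact h τ
  refine (sum_le_sum h1).trans (le_of_eq ?_)
  rw [sum_const, card_univ, Fintype.card_fin, nsmul_eq_mul]
  push_cast
  ring

/-! ### Stars -/

/-- The star: the 3-graph on two vertices and `t` others whose edges are the `t` triples that contain
both of the two vertices. -/
noncomputable def st (t : ℕ) : Finset (Finset (Fin 2 ⊕ Fin t)) :=
  univ.filter fun e => e.card = 3 ∧ Sum.inl 0 ∈ e ∧ Sum.inl 1 ∈ e

/-- positions of the star in the pieces -/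
def sg (τ : Fin 3) (t s : ℕ) (hs : t ≤ s) (h2 : 2 ≤ s) : Fin 2 ⊕ Fin t → Fin 3 × Fin s
  | .inl a => if a = 0 then (1, ⟨0, by omega⟩) else if τ = 1 then (1, ⟨1, by omega⟩) else
      (2, ⟨0, by omega⟩)
  | .inr b => (0, Fin.castLE hs b)

theorem sg_inj (τ : Fin 3) (t s : ℕ) (hs : t ≤ s) (h2 : 2 ≤ s) :
    Function.Injective (sg τ t s hs h2) := by
  rintro (a | a) (b | b) h
  · fin_cases a <;> fin_cases b <;> fin_cases τ <;> simp_all [sg]
  · fin_cases a <;> fin_cases τ <;> simp_all [sg]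
  · fin_cases b <;> fin_cases τ <;> simp_all [sg]
  · simp only [sg, Prod.mk.injEq, true_and] at h
    rw [Fin.castLE_injective _ h]

theorem mem_st {t : ℕ} {u v w : Fin 2 ⊕ Fin t} (huv : u ≠ v) (huw : u ≠ w) (hvw : v ≠ w) :
    ({u, v, w} : Finset (Fin 2 ⊕ Fin t)) ∈ st t ↔
      (Sum.inl 0 = u ∨ Sum.inl 0 = v ∨ Sum.inl 0 = w) ∧
      (Sum.inl 1 = u ∨ Sum.inl 1 = v ∨ Sum.inl 1 = w) := by
  have h3 : ({u, v, w} : Finset (Fin 2 ⊕ Fin t)).card = 3 :=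
    card_eq_three.mpr ⟨u, v, w, huv, huw, hvw, rfl⟩
  unfold st
  rw [mem_filter]
  simp only [mem_univ, h3, true_and, mem_insert, mem_singleton]

theorem st_sub (τ : Fin 3) (t s : ℕ) (hs : t ≤ s) (h2 : 2 ≤ s) : Sub (st t) (pc τ s) := by
  refine ⟨⟨sg τ t s hs h2, sg_inj τ t s hs h2⟩, fun e he => ?_⟩
  obtain ⟨u, v, w, huv, huw, hvw, rfl⟩ := card_eq_three.mp he
  rw [mem_st huv huw hvw, map_insert, map_insert, map_singleton]
  simp only [Function.Embedding.coeFn_mk]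
  have hi := sg_inj τ t s hs h2
  rw [mem_pc τ (hi.ne huv) (hi.ne huw) (hi.ne hvw)]
  have hl : ∀ a : Fin 2, a = 0 ∨ a = 1 := by decide
  rcases u with u | u <;> rcases v with v | v <;> rcases w with w | w <;>
    (try rcases hl u with rfl | rfl) <;> (try rcases hl v with rfl | rfl) <;>
    (try rcases hl w with rfl | rfl) <;>
    (first
      | exact absurd rfl huv
      | exact absurd rfl huw
      | exact absurd rfl hvw
      | (fin_cases τ <;> simp [sg, ty, Fin.forall_fin_succ]))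

end Pool.Agent.Helper38.TP3
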