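import Pool.Agent.Helper38.TP3.Cnt

/-!
# The three pieces and the local theorem
-/

set_option autoImplicit false

open Finset
open scoped Classical

namespace Pool.Agent.Helper38.TP3

open Pool.Agent.N442.LP

/-- The three pieces. The vertices are the pairs `(i, a)`, `i < 3`, `a < t`; the class of `(i, a)`
is `i`. The edges of `piece 0 t` are the triples which meet all three classes, the edges of
`piece 1 t` are the triples with exactly one vertex in the class `0`, and the edges of `piece 2 t`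
are the triples which meet both the class `1` and the class `2`. -/
noncomputable def pc (τ : Fin 3) (t : ℕ) : Finset (Finset (Fin 3 × Fin t)) :=
  univ.filter fun e => e.card = 3 ∧
    match τ with
    | 0 => ∀ i : Fin 3, ∃ x ∈ e, x.1 = i
    | 1 => (e.filter fun x => x.1 = 0).card = 1
    | 2 => (∃ x ∈ e, x.1 = 1) ∧ ∃ x ∈ e, x.1 = 2

/-- the classes of the vertices of an edge -/
def ty (τ : Fin 3) (a b c : Fin 3) : Prop :=
  match τ with
  | 0 => ∀ i : Fin 3, a = i ∨ b = i ∨ c = i
  | 1 => (a = 0 ∧ b ≠ 0 ∧ c ≠ 0) ∨ (a ≠ 0 ∧ b = 0 ∧ c ≠ 0) ∨ (a ≠ 0 ∧ b ≠ 0 ∧ c = 0)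
  | 2 => (a = 1 ∨ b = 1 ∨ c = 1) ∧ (a = 2 ∨ b = 2 ∨ c = 2)

theorem filter3 {α : Type} [DecidableEq α] (p : α → Prop) [DecidablePred p] {u v w : α} (huv : u ≠ v) (huw : u ≠ w) (hvw : v ≠ w) :
    (({u, v, w} : Finset α).filter p).card = 1 ↔
      (p u ∧ ¬ p v ∧ ¬ p w) ∨ (¬ p u ∧ p v ∧ ¬ p w) ∨ (¬ p u ∧ ¬ p v ∧ p w) := by
  by_cases hu : p u <;> by_cases hv : p v <;> by_cases hw : p w <;>
    simp [filter_insert, filter_singleton, hu, hv, hw, huv, huw, hvw]

theorem mem_pc (τ : Fin 3) {t : ℕ} {u v w : Fin 3 × Fin t} (huv : u ≠ v) (huw : u ≠ w)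
    (hvw : v ≠ w) : ({u, v, w} : Finset (Fin 3 × Fin t)) ∈ pc τ t ↔ ty τ u.1 v.1 w.1 := by
  have h3 : ({u, v, w} : Finset (Fin 3 × Fin t)).card = 3 :=
    card_eq_three.mpr ⟨u, v, w, huv, huw, hvw, rfl⟩
  have hm : ∀ p : Fin 3 × Fin t → Prop, (∃ x ∈ ({u, v, w} : Finset (Fin 3 × Fin t)), p x) ↔
      p u ∨ p v ∨ p w := by
    intro p
    simp
  match τ with
  | 0 =>
    simp only [pc, ty, mem_filter, mem_univ, true_and, h3]
    simp only [hm]
  | 1 =>
    simp only [pc, ty, mem_filter, mem_univ, true_and, h3]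
    exact filter3 (fun x : Fin 3 × Fin t => x.1 = 0) huv huw hvw
  | 2 =>
    simp only [pc, ty, mem_filter, mem_univ, true_and, h3]
    simp only [hm]

/-- positions of a copy of a piece: the classes of the piece are in the parts `c i`; the parts of
different classes may agree -/
theorem cp_mk (τ : Fin 3) {k t n : ℕ} {G : Finset (Finset (Fin n))}
    {P : Fin k → Fin k → Fin k → Prop} {y : Fin k → Fin (2 * t + 2) → Fin n} (hR : Real G P y)
    (hI : Inj y) (c : Fin 3 → Fin k) (hc : c 0 ≠ c 2) (h01 : c 0 ≠ c 1)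
    (h : ∀ i j l : Fin 3, (ty τ i j l ↔ P (c i) (c j) (c l))) : HasCp (pc τ t) G y := by
  refine ⟨fun x => (c x.1, if x.1 = 2 then ⟨t + x.2.val, by omega⟩ else ⟨x.2.val, by omega⟩), ?_, ?_, ?_⟩
  · rintro ⟨i, a⟩ ⟨j, b⟩ hab
    simp only [Prod.mk.injEq] at hab
    obtain ⟨h1, h2⟩ := hab
    have key : i = j := by
      by_contra hij
      fin_cases i <;> fin_cases j <;> simp_all [Fin.ext_iff] <;> omega
    subst key
    have : a = b := by
      by_cases hi : i = 2
      · simp only [hi, if_true, Fin.mk.injEq] at h2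
        exact Fin.ext (by omega)
      · simp only [hi, if_false, Fin.mk.injEq] at h2
        exact Fin.ext h2
    rw [this]
  · rintro ⟨i, a⟩ ⟨j, b⟩ hab
    have h0 := hI _ _ _ _ hab
    obtain ⟨h1, h2⟩ := h0
    simp only at h1 h2
    have key : i = j := by
      by_contra hij
      fin_cases i <;> fin_cases j <;> simp_all [Fin.ext_iff] <;> omega
    subst key
    have : a = b := by
      by_cases hi : i = 2
      · simp only [hi, if_true, Fin.mk.injEq] at h2
        exact Fin.ext (by omega)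
      · simp only [hi, if_false, Fin.mk.injEq] at h2
        exact Fin.ext h2
    rw [this]
  · intro e he
    obtain ⟨u, v, w, huv, huw, hvw, rfl⟩ := card_eq_three.mp he
    rw [mem_pc τ huv huw hvw, h, image_insert, image_insert, image_singleton]
    have inj : ∀ x x' : Fin 3 × Fin t, x ≠ x' →
        (c x.1, if x.1 = 2 then (⟨t + x.2.val, by omega⟩ : Fin (2 * t + 2)) else ⟨x.2.val, by omega⟩) ≠
        (c x'.1, if x'.1 = 2 then (⟨t + x'.2.val, by omega⟩ : Fin (2 * t + 2)) else
          ⟨x'.2.val, by omega⟩) := by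
      rintro ⟨i, a⟩ ⟨j, b⟩ hne hab
      apply hne
      simp only [Prod.mk.injEq] at hab
      obtain ⟨h1, h2⟩ := hab
      have key : i = j := by
        by_contra hij
        fin_cases i <;> fin_cases j <;> simp_all [Fin.ext_iff] <;> omega
      subst key
      have : a = b := by
        by_cases hi : i = 2
        · simp only [hi, if_true, Fin.mk.injEq] at h2
          exact Fin.ext (by omega)
        · simp only [hi, if_false, Fin.mk.injEq] at h2
          exact Fin.ext h2
      rw [this]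
    exact (hR _ _ _ _ _ _ (inj u v huv) (inj v w hvw) (inj u w huw)).symm

/-- one-way pairs give the piece 1 -/
theorem pos1 {k t n : ℕ} {G : Finset (Finset (Fin n))} {P : Fin k → Fin k → Fin k → Prop}
    {y : Fin k → Fin (2 * t + 2) → Fin n} (hP : IsPat P) (hR : Real G P y) (hI : Inj y) {i j : Fin k}
    (hij : i ≠ j) (h1 : P i i j) (h2 : ¬ P j j i) : HasCp (pc 1 t) G y := by
  refine cp_mk 1 hR hI (fun x => if x = 0 then j else i) (by simp [hij.symm]) (by simp [hij.symm]) ?_
  have a1 : P i j i := hP.s23 h1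
  have a2 : P j i i := hP.s12 a1
  have b1 : ¬ P j i j := fun h => h2 (hP.s23 h)
  have b2 : ¬ P i j j := fun h => b1 (hP.s12 h)
  have c1 := hP.irr i
  have c2 := hP.irr j
  intro a b c
  fin_cases a <;> fin_cases b <;> fin_cases c <;> simp_all [ty]

/-- three pairwise far parts with an edge -/
theorem pos0 {k t n : ℕ} {G : Finset (Finset (Fin n))} {P : Fin k → Fin k → Fin k → Prop}
    {y : Fin k → Fin (2 * t + 2) → Fin n} (hP : IsPat P) (hR : Real G P y) (hI : Inj y) {i j l : Fin k}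
    (hij : i ≠ j) (hil : i ≠ l) (f1 : Far P i j) (f2 : Far P i l) (f3 : Far P j l)
    (h : P i j l) : HasCp (pc 0 t) G y := by
  refine cp_mk 0 hR hI ![i, j, l] (by simpa using hil) (by simpa using hij) ?_
  obtain ⟨a1, a2⟩ := f1
  obtain ⟨b1, b2⟩ := f2
  obtain ⟨d1, d2⟩ := f3
  have c1 := hP.irr i
  have c2 := hP.irr j
  have c3 := hP.irr l
  have a3 : ¬ P i j i := fun h => a1 (hP.s23 h)
  have a4 : ¬ P j i i := fun h => a3 (hP.s12 h)
  have a5 : ¬ P j i j := fun h => a2 (hP.s23 h)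
  have a6 : ¬ P i j j := fun h => a5 (hP.s12 h)
  have b3 : ¬ P i l i := fun h => b1 (hP.s23 h)
  have b4 : ¬ P l i i := fun h => b3 (hP.s12 h)
  have b5 : ¬ P l i l := fun h => b2 (hP.s23 h)
  have b6 : ¬ P i l l := fun h => b5 (hP.s12 h)
  have d3 : ¬ P j l j := fun h => d1 (hP.s23 h)
  have d4 : ¬ P l j j := fun h => d3 (hP.s12 h)
  have d5 : ¬ P l j l := fun h => d2 (hP.s23 h)
  have d6 : ¬ P j l l := fun h => d5 (hP.s12 h)
  have e1 : P i l j := hP.s23 h
  have e2 : P j i l := hP.s12 h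
  have e3 : P j l i := hP.s23 e2
  have e4 : P l i j := hP.s12 e1
  have e5 : P l j i := hP.s23 e4
  intro a b c
  fin_cases a <;> fin_cases b <;> fin_cases c <;>
    simp [ty, Fin.forall_fin_succ, *]

/-- the part `i` is far from `j` and `l` which are near, and there is an edge -/
theorem pos2 {k t n : ℕ} {G : Finset (Finset (Fin n))} {P : Fin k → Fin k → Fin k → Prop}
    {y : Fin k → Fin (2 * t + 2) → Fin n} (hP : IsPat P) (hR : Real G P y) (hI : Inj y) {i j l : Fin k}
    (hij : i ≠ j) (hil : i ≠ l) (f1 : Far P i j) (f2 : Far P i l) (d1 : P j j l) (d2 : P l l j)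
    (h : P i j l) : HasCp (pc 2 t) G y := by
  refine cp_mk 2 hR hI ![i, j, l] (by simpa using hil) (by simpa using hij) ?_
  obtain ⟨a1, a2⟩ := f1
  obtain ⟨b1, b2⟩ := f2
  have c1 := hP.irr i
  have c2 := hP.irr j
  have c3 := hP.irr l
  have a3 : ¬ P i j i := fun h => a1 (hP.s23 h)
  have a4 : ¬ P j i i := fun h => a3 (hP.s12 h)
  have a5 : ¬ P j i j := fun h => a2 (hP.s23 h)
  have a6 : ¬ P i j j := fun h => a5 (hP.s12 h)
  have b3 : ¬ P i l i := fun h => b1 (hP.s23 h)
  have b4 : ¬ P l i i := fun h => b3 (hP.s12 h)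
  have b5 : ¬ P l i l := fun h => b2 (hP.s23 h)
  have b6 : ¬ P i l l := fun h => b5 (hP.s12 h)
  have d3 : P j l j := hP.s23 d1
  have d4 : P l j j := hP.s12 d3
  have d5 : P l j l := hP.s23 d2
  have d6 : P j l l := hP.s12 d5
  have e1 : P i l j := hP.s23 h
  have e2 : P j i l := hP.s12 h
  have e3 : P j l i := hP.s23 e2
  have e4 : P l i j := hP.s12 e1
  have e5 : P l j i := hP.s23 e4
  intro a b c
  fin_cases a <;> fin_cases b <;> fin_cases c <;>
    simp [ty, *]

end Pool.Agent.Helper38.TP3
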