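import Pool.Agent.Helper38.TP3.Main

/-!
# Sets of `k` vertices which span exactly `e` edges
-/

set_option autoImplicit false

open Finset
open scoped Classical

namespace Pool.Agent.Helper38.TP3

open Pool.Agent.N442.LP

/-- The number of sets of `k` vertices which span exactly `e` edges of `H`. -/
noncomputable def spn {n : ℕ} (H : Finset (Finset (Fin n))) (k e : ℕ) : ℕ :=
  (((univ : Finset (Fin n)).powersetCard k).filter fun S =>
    (H.filter fun t => t ⊆ S).card = e).card

/-- the edges inside the image of a copy -/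
theorem span_eq {k n : ℕ} {F : Finset (Finset (Fin k))} (hF : ∀ t ∈ F, t.card = 3)
    {H : Finset (Finset (Fin n))} (h3 : ∀ t ∈ H, t.card = 3) {f : Fin k → Fin n} (hf : IsCp F H f) :
    (H.filter fun t => t ⊆ univ.image f).card = F.card := by
  symm
  refine card_bij (fun t _ => t.image f) ?_ ?_ ?_
  · intro t ht
    exact mem_filter.mpr ⟨(hf.2 t (hF t ht)).mp ht, image_subset_image (subset_univ _)⟩
  · intro t _ t' _ h
    exact image_injective hf.1 h
  · intro t ht
    obtain ⟨h1, h2⟩ := mem_filter.mp ht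
    obtain ⟨t', -, rfl⟩ := subset_image_iff.mp h2
    have hc : t'.card = 3 := by
      rw [← h3 _ h1, card_image_of_injective _ hf.1]
    exact ⟨t', (hf.2 t' hc).mpr h1, rfl⟩

/-- few sets spanning `e` edges, few copies of a 3-graph with `k` vertices and `e` edges -/
theorem cps_le_spn {k n e : ℕ} {F : Finset (Finset (Fin k))} (hF : ∀ t ∈ F, t.card = 3)
    (he : F.card = e) {H : Finset (Finset (Fin n))} (h3 : ∀ t ∈ H, t.card = 3) :
    cps F H ≤ k ^ k * spn H k e := by
  unfold cps spn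
  refine (card_le_card (t := (((univ : Finset (Fin n)).powersetCard k).filter fun S =>
        (H.filter fun t => t ⊆ S).card = e).biUnion fun S => Fintype.piFinset fun _ => S)
    (fun f hf => ?_)).trans (card_biUnion_le.trans ?_)
  · have hf' := (mem_filter.mp hf).2
    rw [mem_biUnion]
    refine ⟨univ.image f, mem_filter.mpr ⟨mem_powersetCard.mpr ⟨subset_univ _, ?_⟩, ?_⟩, ?_⟩
    · rw [card_image_of_injective _ hf'.1, card_univ, Fintype.card_fin]
    · rw [span_eq hF h3 hf', he]
    · rw [Fintype.mem_piFinset]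
      exact fun a => mem_image_of_mem _ (mem_univ a)
  have h2 : ∀ S ∈ (((univ : Finset (Fin n)).powersetCard k).filter fun S =>
      (H.filter fun t => t ⊆ S).card = e), (Fintype.piFinset fun _ : Fin k => S).card ≤ k ^ k := by
    intro S hS
    have := (mem_powersetCard.mp (mem_filter.mp hS).1).2
    rw [Fintype.card_piFinset]
    simp [this]
  refine (sum_le_sum h2).trans (le_of_eq ?_)
  rw [sum_const, smul_eq_mul, mul_comm]

/-! ### The numbers of edges of the subgraphs of the pieces -/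

/-- the pull-back of a piece -/
noncomputable def pull (τ : Fin 3) {k : ℕ} (c : Fin k → Fin 3) : Finset (Finset (Fin k)) :=
  univ.filter fun e => e.card = 3 ∧
    match τ with
    | 0 => ∀ i : Fin 3, ∃ x ∈ e, c x = i
    | 1 => (e.filter fun x => c x = 0).card = 1
    | 2 => (∃ x ∈ e, c x = 1) ∧ ∃ x ∈ e, c x = 2

theorem mem_pull (τ : Fin 3) {k : ℕ} {c : Fin k → Fin 3} {u v w : Fin k} (huv : u ≠ v) (huw : u ≠ w)
    (hvw : v ≠ w) : ({u, v, w} : Finset (Fin k)) ∈ pull τ c ↔ ty τ (c u) (c v) (c w) := by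
  have h3 : ({u, v, w} : Finset (Fin k)).card = 3 :=
    card_eq_three.mpr ⟨u, v, w, huv, huw, hvw, rfl⟩
  have hm : ∀ p : Fin k → Prop, (∃ x ∈ ({u, v, w} : Finset (Fin k)), p x) ↔
      p u ∨ p v ∨ p w := by
    intro p
    simp
  match τ with
  | 0 =>
    simp only [pull, ty, mem_filter, mem_univ, true_and, h3]
    simp only [hm]
  | 1 =>
    simp only [pull, ty, mem_filter, mem_univ, true_and, h3]
    exact filter3 (fun x : Fin k => c x = 0) huv huw hvw
  | 2 =>
    simp only [pull, ty, mem_filter, mem_univ, true_and, h3]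
    simp only [hm]

theorem pull_three (τ : Fin 3) {k : ℕ} (c : Fin k → Fin 3) : ∀ t ∈ pull τ c, t.card = 3 :=
  fun _ ht => (mem_filter.mp ht).2.1

theorem pull_sub (τ : Fin 3) {k : ℕ} (c : Fin k → Fin 3) : Sub (pull τ c) (pc τ k) := by
  have hi : Function.Injective (fun i => (c i, i) : Fin k → Fin 3 × Fin k) :=
    fun i j h => congrArg Prod.snd h
  refine ⟨⟨fun i => (c i, i), hi⟩, fun e he => ?_⟩
  obtain ⟨u, v, w, huv, huw, hvw, rfl⟩ := card_eq_three.mp he
  rw [mem_pull τ huv huw hvw, map_insert, map_insert, map_singleton]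
  change _ ↔ ({(c u, u), (c v, v), (c w, w)} : Finset (Fin 3 × Fin k)) ∈ pc τ k
  rw [mem_pc τ (hi.ne huv) (hi.ne huw) (hi.ne hvw)]

/-- the class `i` -/
noncomputable def cl {k : ℕ} (c : Fin k → Fin 3) (i : Fin 3) : Finset (Fin k) :=
  univ.filter fun x => c x = i

theorem mem_cl {k : ℕ} {c : Fin k → Fin 3} {i : Fin 3} {x : Fin k} : x ∈ cl c i ↔ c x = i := by
  simp [cl]

/-- one vertex in `A` and two in `B` -/
noncomputable def onetwo {k : ℕ} (A B : Finset (Fin k)) : Finset (Finset (Fin k)) :=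
  (A ×ˢ B.powersetCard 2).image fun p => insert p.1 p.2

theorem onetwo_card {k : ℕ} {A B : Finset (Fin k)} (h : Disjoint A B) :
    (onetwo A B).card = A.card * B.card.choose 2 := by
  unfold onetwo
  rw [card_image_of_injOn, card_product, card_powersetCard]
  rintro ⟨x, p⟩ hx ⟨x', p'⟩ hx' he
  rw [mem_coe, mem_product, mem_powersetCard] at hx hx'
  simp only at hx hx' he
  have hn : ∀ z ∈ A, z ∉ B := fun z hz => disjoint_left.mp h hz
  have h1 : x = x' := by
    have : x ∈ insert x' p' := he ▸ mem_insert_self x p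
    rcases mem_insert.mp this with h2 | h2
    · exact h2
    · exact absurd (hx'.2.1 h2) (hn x hx.1)
  subst h1
  have hxp : x ∉ p := fun h2 => hn x hx.1 (hx.2.1 h2)
  have hxp' : x ∉ p' := fun h2 => hn x hx.1 (hx'.2.1 h2)
  have : p = p' := by
    rw [← erase_insert hxp, ← erase_insert hxp', he]
  rw [this]

theorem mem_onetwo {k : ℕ} {A B : Finset (Fin k)} {e : Finset (Fin k)} (h : Disjoint A B) :
    e ∈ onetwo A B ↔ e.card = 3 ∧ ∃ x ∈ A, x ∈ e ∧ ∀ y ∈ e, y ≠ x → y ∈ B := by
  unfold onetwo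
  rw [mem_image]
  constructor
  · rintro ⟨⟨x, p⟩, hp, rfl⟩
    rw [mem_product, mem_powersetCard] at hp
    simp only at hp ⊢
    have hxp : x ∉ p := fun h2 => disjoint_left.mp h hp.1 (hp.2.1 h2)
    refine ⟨by rw [card_insert_of_notMem hxp, hp.2.2], x, hp.1, mem_insert_self _ _, ?_⟩
    intro y hy hyx
    exact hp.2.1 ((mem_insert.mp hy).resolve_left hyx)
  · rintro ⟨h3, x, hx, hxe, hB⟩
    refine ⟨(x, e.erase x), ?_, insert_erase hxe⟩
    rw [mem_product, mem_powersetCard]
    refine ⟨hx, ?_, by rw [card_erase_of_mem hxe, h3]⟩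
    intro y hy
    exact hB y (mem_of_mem_erase hy) (ne_of_mem_erase hy)

/-- one vertex in each of three sets -/
noncomputable def ones {k : ℕ} (A B C : Finset (Fin k)) : Finset (Finset (Fin k)) :=
  (A ×ˢ B ×ˢ C).image fun p => {p.1, p.2.1, p.2.2}

theorem ones_card {k : ℕ} {c : Fin k → Fin 3} :
    (ones (cl c 0) (cl c 1) (cl c 2)).card = (cl c 0).card * (cl c 1).card * (cl c 2).card := by
  unfold ones
  rw [card_image_of_injOn, card_product, card_product, mul_assoc]
  rintro ⟨x, y, z⟩ hx ⟨x', y', z'⟩ hx' he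
  simp only [mem_coe, mem_product, mem_cl] at hx hx' he
  obtain ⟨a1, a2, a3⟩ := hx
  obtain ⟨b1, b2, b3⟩ := hx'
  have key : ∀ v ∈ ({x', y', z'} : Finset (Fin k)), (c v = 0 → v = x') ∧ (c v = 1 → v = y') ∧
      (c v = 2 → v = z') := by
    intro v hv
    simp only [mem_insert, mem_singleton] at hv
    rcases hv with rfl | rfl | rfl
    · exact ⟨fun _ => rfl, fun h => absurd (b1.symm.trans h) (by decide),
        fun h => absurd (b1.symm.trans h) (by decide)⟩
    · exact ⟨fun h => absurd (b2.symm.trans h) (by decide), fun _ => rfl,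
        fun h => absurd (b2.symm.trans h) (by decide)⟩
    · exact ⟨fun h => absurd (b3.symm.trans h) (by decide),
        fun h => absurd (b3.symm.trans h) (by decide), fun _ => rfl⟩
  have k1 := (key x (he ▸ by simp)).1 a1
  have k2 := (key y (he ▸ by simp)).2.1 a2
  have k3 := (key z (he ▸ by simp)).2.2 a3
  rw [k1, k2, k3]

theorem pull0_card {k : ℕ} (c : Fin k → Fin 3) :
    (pull 0 c).card = (cl c 0).card * (cl c 1).card * (cl c 2).card := by
  rw [← ones_card]
  congr 1
  ext e
  unfold ones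
  simp only [pull, mem_filter, mem_univ, true_and, mem_image, mem_product, mem_cl, Prod.exists]
  constructor
  · rintro ⟨h3, h⟩
    obtain ⟨x, hx, cx⟩ := h 0
    obtain ⟨y, hy, cy⟩ := h 1
    obtain ⟨z, hz, cz⟩ := h 2
    refine ⟨x, y, z, ⟨cx, cy, cz⟩, ?_⟩
    have hxy : x ≠ y := by rintro rfl; exact absurd (cx.symm.trans cy) (by decide)
    have hxz : x ≠ z := by rintro rfl; exact absurd (cx.symm.trans cz) (by decide)
    have hyz : y ≠ z := by rintro rfl; exact absurd (cy.symm.trans cz) (by decide)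
    refine eq_of_subset_of_card_le ?_ ?_
    · intro v hv
      simp only [mem_insert, mem_singleton] at hv
      rcases hv with rfl | rfl | rfl <;> assumption
    · rw [h3, card_eq_three.mpr ⟨x, y, z, hxy, hxz, hyz, rfl⟩]
  · rintro ⟨x, y, z, ⟨cx, cy, cz⟩, rfl⟩
    have hxy : x ≠ y := by rintro rfl; exact absurd (cx.symm.trans cy) (by decide)
    have hxz : x ≠ z := by rintro rfl; exact absurd (cx.symm.trans cz) (by decide)
    have hyz : y ≠ z := by rintro rfl; exact absurd (cy.symm.trans cz) (by decide)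
    refine ⟨card_eq_three.mpr ⟨x, y, z, hxy, hxz, hyz, rfl⟩, fun i => ?_⟩
    fin_cases i
    · exact ⟨x, by simp, cx⟩
    · exact ⟨y, by simp, cy⟩
    · exact ⟨z, by simp, cz⟩

theorem pull1_card {k : ℕ} (c : Fin k → Fin 3) :
    (pull 1 c).card = (cl c 0).card * (k - (cl c 0).card).choose 2 := by
  have hd : Disjoint (cl c 0) (cl c 0)ᶜ := disjoint_compl_right
  have h1 := onetwo_card hd
  rw [card_compl, Fintype.card_fin] at h1
  rw [← h1]
  congr 1
  ext e
  rw [mem_onetwo hd]
  simp only [pull, mem_filter, mem_univ, true_and, mem_compl, mem_cl]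
  refine and_congr_right fun h3 => ?_
  rw [card_eq_one]
  constructor
  · rintro ⟨x, hx⟩
    have hx' : x ∈ e.filter fun x => c x = 0 := hx ▸ mem_singleton_self x
    rw [mem_filter] at hx'
    refine ⟨x, hx'.2, hx'.1, fun y hy hyx hc => hyx ?_⟩
    have : y ∈ e.filter fun x => c x = 0 := mem_filter.mpr ⟨hy, hc⟩
    rw [hx] at this
    exact mem_singleton.mp this
  · rintro ⟨x, cx, hx, h⟩
    refine ⟨x, ?_⟩
    ext y
    rw [mem_filter, mem_singleton]
    constructor
    · rintro ⟨hy, cy⟩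
      by_contra hyx
      exact h y hy hyx cy
    · rintro rfl
      exact ⟨hx, cx⟩

theorem cl_disj {k : ℕ} (c : Fin k → Fin 3) {i j : Fin 3} (h : i ≠ j) : Disjoint (cl c i) (cl c j) :=
  disjoint_left.mpr fun _ h1 h2 => h ((mem_cl.mp h1).symm.trans (mem_cl.mp h2))

theorem pull2_eq {k : ℕ} (c : Fin k → Fin 3) : pull 2 c =
    (pull 0 c ∪ onetwo (cl c 1) (cl c 2)) ∪ onetwo (cl c 2) (cl c 1) := by
  ext e
  by_cases h3 : e.card = 3
  · obtain ⟨u, v, w, huv, huw, hvw, rfl⟩ := card_eq_three.mp h3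
    rw [mem_union, mem_union, mem_pull 2 huv huw hvw, mem_pull 0 huv huw hvw,
      mem_onetwo (cl_disj c (by decide)), mem_onetwo (cl_disj c (by decide))]
    simp only [h3, true_and, mem_cl, ty, mem_insert, mem_singleton, forall_eq_or_imp, forall_eq]
    have hvu := huv.symm
    have hwu := huw.symm
    have hwv := hvw.symm
    have e1 : ∀ p q : Fin 3, (∃ x, c x = p ∧ (x = u ∨ x = v ∨ x = w) ∧ (u ≠ x → c u = q) ∧
        (v ≠ x → c v = q) ∧ (w ≠ x → c w = q)) ↔
        (c u = p ∧ c v = q ∧ c w = q) ∨ (c v = p ∧ c u = q ∧ c w = q) ∨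
        (c w = p ∧ c u = q ∧ c v = q) := by
      intro p q
      constructor
      · rintro ⟨x, hx, rfl | rfl | rfl, h1, h2, h3⟩
        · exact Or.inl ⟨hx, h2 hvu, h3 hwu⟩
        · exact Or.inr (Or.inl ⟨hx, h1 huv, h3 hwv⟩)
        · exact Or.inr (Or.inr ⟨hx, h1 huw, h2 hvw⟩)
      · rintro (⟨h1, h2, h3⟩ | ⟨h1, h2, h3⟩ | ⟨h1, h2, h3⟩)
        · exact ⟨u, h1, Or.inl rfl, fun h => absurd rfl h, fun _ => h2, fun _ => h3⟩
        · exact ⟨v, h1, Or.inr (Or.inl rfl), fun _ => h2, fun h => absurd rfl h, fun _ => h3⟩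
        · exact ⟨w, h1, Or.inr (Or.inr rfl), fun _ => h2, fun _ => h3, fun h => absurd rfl h⟩
    rw [e1, e1]
    generalize c u = a
    generalize c v = b
    generalize c w = d
    revert a b d
    decide
  · constructor
    · intro h
      exact absurd (pull_three 2 c e h) h3
    · intro h
      rw [mem_union, mem_union, mem_onetwo (cl_disj c (by decide)),
        mem_onetwo (cl_disj c (by decide))] at h
      rcases h with (h | h) | h
      · exact absurd (pull_three 0 c e h) h3
      · exact absurd h.1 h3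
      · exact absurd h.1 h3

theorem pull0_all {k : ℕ} {c : Fin k → Fin 3} {e : Finset (Fin k)} (h : e ∈ pull 0 c) :
    ∀ i : Fin 3, ∃ x ∈ e, c x = i := by
  simp only [pull, mem_filter, mem_univ, true_and] at h
  exact h.2

theorem cl_card_sum {k : ℕ} (c : Fin k → Fin 3) :
    (cl c 0).card + (cl c 1).card + (cl c 2).card = k := by
  have h := card_eq_sum_card_fiberwise (s := (univ : Finset (Fin k))) (t := (univ : Finset (Fin 3)))
    (f := c) (fun _ _ => mem_coe.mpr (mem_univ _))
  rw [card_univ, Fintype.card_fin, Fin.sum_univ_three] at h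
  exact h.symm

theorem pull2_card {k : ℕ} (c : Fin k → Fin 3) :
    (pull 2 c).card = (cl c 0).card * (cl c 1).card * (cl c 2).card +
      (cl c 1).card * (cl c 2).card.choose 2 + (cl c 2).card * (cl c 1).card.choose 2 := by
  have d12 := cl_disj c (show (1 : Fin 3) ≠ 2 by decide)
  rw [pull2_eq, card_union_of_disjoint, card_union_of_disjoint, pull0_card, onetwo_card d12,
    onetwo_card d12.symm]
  · rw [disjoint_left]
    intro e he h
    rw [mem_onetwo d12] at h
    obtain ⟨x, hx, cx⟩ := pull0_all he 0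
    obtain ⟨-, y, hy, -, hB⟩ := h
    by_cases hxy : x = y
    · subst hxy
      exact absurd (cx.symm.trans (mem_cl.mp hy)) (by decide)
    · exact absurd (cx.symm.trans (mem_cl.mp (hB x hx hxy))) (by decide)
  · rw [disjoint_left]
    intro e he h
    rw [mem_onetwo d12.symm] at h
    obtain ⟨h3, y, hy, hye, hB⟩ := h
    rcases mem_union.mp he with he | he
    · obtain ⟨x, hx, cx⟩ := pull0_all he 0
      by_cases hxy : x = y
      · subst hxy
        exact absurd (cx.symm.trans (mem_cl.mp hy)) (by decide)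
      · exact absurd (cx.symm.trans (mem_cl.mp (hB x hx hxy))) (by decide)
    · rw [mem_onetwo d12] at he
      obtain ⟨-, x, hx, hxe, hA⟩ := he
      -- two vertices of class 1 and two of class 2 in a triple
      have hxy : x ≠ y := by
        rintro rfl
        exact absurd ((mem_cl.mp hx).symm.trans (mem_cl.mp hy)) (by decide)
      obtain ⟨z, hz, hzn⟩ : ∃ z ∈ e, z ∉ ({x, y} : Finset (Fin k)) := by
        by_contra hcon
        push Not at hcon
        have : e.card ≤ 2 := (card_le_card hcon).trans card_le_two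
        omega
      rw [mem_insert, mem_singleton, not_or] at hzn
      exact absurd ((mem_cl.mp (hA z hz hzn.1)).symm.trans (mem_cl.mp (hB z hz hzn.2))) (by decide)

/-- a map with given sizes of the classes -/
theorem exists_cl {a b d k : ℕ} (h : a + b + d = k) : ∃ c : Fin k → Fin 3,
    (cl c 0).card = a ∧ (cl c 1).card = b ∧ (cl c 2).card = d := by
  let c : Fin k → Fin 3 := fun i => if i.val < a then 0 else if i.val < a + b then 1 else 2
  have h0 : (cl c 0).card = a := by
    have : cl c 0 = univ.filter fun i : Fin k => i.val < a := by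
      ext i
      simp only [mem_cl, mem_filter, mem_univ, true_and, c]
      split_ifs with h1 h2 <;> simp [h1]
    rw [this, Fin.card_filter_val_lt]
    omega
  have h01 : (cl c 0 ∪ cl c 1).card = a + b := by
    have : cl c 0 ∪ cl c 1 = univ.filter fun i : Fin k => i.val < a + b := by
      ext i
      simp only [mem_union, mem_cl, mem_filter, mem_univ, true_and, c]
      split_ifs with h1 h2 <;> simp <;> omega
    rw [this, Fin.card_filter_val_lt]
    omega
  rw [card_union_of_disjoint (cl_disj c (by decide))] at h01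
  have := cl_card_sum c
  exact ⟨c, h0, by omega, by omega⟩

/-- `e` is the number of edges of an induced subgraph with `k` vertices of each of the three
pieces. -/
def Rep3 (k e : ℕ) : Prop :=
  (∃ a b c : ℕ, a + b + c = k ∧ a * b * c = e) ∧
  (∃ a b : ℕ, a + b = k ∧ a * b.choose 2 = e) ∧
  ∃ a b c : ℕ, a + b + c = k ∧ a * b * c + b * c.choose 2 + c * b.choose 2 = e

theorem rep_pull {k e : ℕ} (h : Rep3 k e) : ∀ τ : Fin 3, ∃ c : Fin k → Fin 3,
    (pull τ c).card = e := by
  obtain ⟨⟨a, b, d, h1, h2⟩, ⟨a', b', h3, h4⟩, a'', b'', d'', h5, h6⟩ := h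
  intro τ
  match τ with
  | 0 =>
    obtain ⟨c, c0, c1, c2⟩ := exists_cl h1
    exact ⟨c, by rw [pull0_card, c0, c1, c2, h2]⟩
  | 1 =>
    obtain ⟨c, c0, -, -⟩ := exists_cl (a := a') (b := b') (d := 0) (by omega)
    refine ⟨c, ?_⟩
    rw [pull1_card, c0, ← h4]
    congr 2
    omega
  | 2 =>
    obtain ⟨c, c0, c1, c2⟩ := exists_cl h5
    exact ⟨c, by rw [pull2_card, c0, c1, c2, h6]⟩

theorem rep_sub {k : ℕ} (hk : 2 ≤ k) : Rep3 k (k - 2) := by
  refine ⟨⟨k - 2, 1, 1, by omega, by ring⟩, ⟨k - 2, 2, by omega, by simp⟩, k - 2, 1, 1, by omega, ?_⟩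
  simp

/-- **Order and size.** -/
theorem thmS {m : ℕ} (hm : 3 ≤ m) {k e : ℕ} (hke : Rep3 k e) {ε : ℝ} (hε : 0 < ε) :
    ∃ δ : ℝ, 0 < δ ∧ ∃ N : ℕ, ∀ n : ℕ, N ≤ n → ∀ G : Finset (Finset (Fin n)),
      (∀ e ∈ G, e.card = 3) → KFree m G → (spn G k e : ℝ) ≤ δ * (n : ℝ) ^ k →
      (G.card : ℝ) ≤ (rho (2 * ((m - 1) / 2)) + ε) * (n.choose 3 : ℝ) := by
  choose c hc using rep_pull hke
  obtain ⟨δ, hδ, N, hN⟩ := thm3F hm (fun τ => pull τ (c τ)) k (fun τ => pull_sub τ (c τ)) hε
  refine ⟨δ / ((k : ℝ) ^ k + 1), by positivity, N, fun n hn G h3 hK h => hN n hn G h3 hK fun τ => ?_⟩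
  have h1 := (Nat.cast_le (α := ℝ)).2 (cps_le_spn (pull_three τ (c τ)) (hc τ) h3)
  push_cast at h1
  rw [Fintype.card_fin]
  have hk : (0 : ℝ) ≤ (k : ℝ) ^ k := by positivity
  calc (cps (pull τ (c τ)) G : ℝ) ≤ (k : ℝ) ^ k * (spn G k e : ℝ) := h1
    _ ≤ (k : ℝ) ^ k * (δ / ((k : ℝ) ^ k + 1) * (n : ℝ) ^ k) := mul_le_mul_of_nonneg_left h hk
    _ = ((k : ℝ) ^ k / ((k : ℝ) ^ k + 1)) * (δ * (n : ℝ) ^ k) := by ring
    _ ≤ 1 * (δ * (n : ℝ) ^ k) := by
        refine mul_le_mul_of_nonneg_right ?_ (by positivity)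
        rw [div_le_one (by positivity)]
        linarith
    _ = δ * (n : ℝ) ^ k := one_mul _

end Pool.Agent.Helper38.TP3
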